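import Mathlib

open MeasureTheory Set

namespace Pool.Agent.Results.MP_d698c5_an.NoHaar

theorem exists_chi : ∃ χ : ℤ_[2] → ℝ, (∀ s, 0 < χ s) ∧ χ 0 = 1 ∧ χ 1 = 2 ∧
    ∀ s t, χ (s + t) = χ s * χ t := by
  obtain ⟨f, hf⟩ := Module.Projective.exists_dual_ne_zero ℚ (x := (1 : ℚ_[2])) one_ne_zero
  refine ⟨fun s => (2 : ℝ) ^ (((f (s : ℚ_[2]) / f 1 : ℚ)) : ℝ), fun s => by positivity, by simp,
    by simp [hf], fun s t => ?_⟩
  simp only [PadicInt.coe_add, map_add]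
  rw [← Real.rpow_add two_pos]
  congr 1
  push_cast
  ring

/-- The underlying space. -/
def X : Type := ℝ × ℤ_[2]

/-- The group structure attached to a character. -/
@[reducible] noncomputable def grp (χ : ℤ_[2] → ℝ) (h0 : χ 0 = 1) (hm : ∀ s t, χ (s + t) = χ s * χ t) :
    Group X where
  mul x y := (y.1 + χ y.2 * x.1, x.2 + y.2)
  one := (0, 0)
  inv x := (-(χ (-x.2) * x.1), -x.2)
  mul_assoc x y z := by
    refine Prod.ext ?_ (add_assoc _ _ _)
    change z.1 + χ z.2 * (y.1 + χ y.2 * x.1) = z.1 + χ z.2 * y.1 + χ (y.2 + z.2) * x.1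
    rw [hm]; ring
  one_mul x := by
    refine Prod.ext ?_ (zero_add _)
    change x.1 + χ x.2 * 0 = x.1
    ring
  mul_one x := by
    refine Prod.ext ?_ (add_zero _)
    change 0 + χ 0 * x.1 = x.1
    rw [h0]; ring
  inv_mul_cancel x := by
    refine Prod.ext ?_ (neg_add_cancel _)
    change x.1 + χ x.2 * -(χ (-x.2) * x.1) = 0
    have := hm x.2 (-x.2)
    rw [add_neg_cancel, h0] at this
    linear_combination x.1 * this

theorem key (χ : ℤ_[2] → ℝ) (h0 : χ 0 = 1) (h1 : χ 1 = 2)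
    (μ : @Measure (ℝ × ℤ_[2]) (borel _)) (hfin : ∀ K, IsCompact K → μ K < ⊤)
    (hinv : ∀ (g : ℝ × ℤ_[2]) (E : Set (ℝ × ℤ_[2])), MeasurableSet[borel _] E →
      μ ((fun e : ℝ × ℤ_[2] => ((g.1 + χ g.2 * e.1, e.2 + g.2) : ℝ × ℤ_[2])) '' E) = μ E) :
    μ = 0 := by
  letI : MeasurableSpace (ℝ × ℤ_[2]) := borel _
  haveI : BorelSpace (ℝ × ℤ_[2]) := ⟨rfl⟩
  have hmeas : ∀ a b : ℝ, MeasurableSet (Prod.fst ⁻¹' Ico a b : Set (ℝ × ℤ_[2])) := fun a b =>
    measurableSet_preimage continuous_fst.measurable measurableSet_Ico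
  have ht : ∀ a : ℝ, μ (Prod.fst ⁻¹' Ico a (a + 1)) = μ (Prod.fst ⁻¹' Ico 0 1) := fun a => by
    rw [← hinv (a, 0) _ (hmeas 0 1)]
    congr 1
    ext ⟨b, k⟩
    simp only [mem_preimage, mem_Ico, mem_image, h0, Prod.mk.injEq, Prod.exists]
    constructor
    · rintro ⟨h, h'⟩
      exact ⟨b - a, k, ⟨by linarith, by linarith⟩, by ring, by ring⟩
    · rintro ⟨c, l, ⟨h, h'⟩, rfl, -⟩
      exact ⟨by linarith, by linarith⟩
  have hd : μ (Prod.fst ⁻¹' Ico 0 2) = μ (Prod.fst ⁻¹' Ico 0 1) := by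
    rw [← hinv (0, 1) _ (hmeas 0 1)]
    congr 1
    ext ⟨b, k⟩
    simp only [mem_preimage, mem_Ico, mem_image, h1, Prod.mk.injEq, Prod.exists]
    constructor
    · rintro ⟨h, h'⟩
      exact ⟨b / 2, k - 1, ⟨by linarith, by linarith⟩, by ring, by ring⟩
    · rintro ⟨c, l, ⟨h, h'⟩, rfl, -⟩
      exact ⟨by linarith, by linarith⟩
  have hs : μ (Prod.fst ⁻¹' Ico 0 2) = μ (Prod.fst ⁻¹' Ico 0 1) + μ (Prod.fst ⁻¹' Ico 0 1) := by
    conv_rhs => rw [← ht 1]; enter [1]; rw [ht 1]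
    rw [← measure_union _ (hmeas _ _), ← preimage_union, Ico_union_Ico_eq_Ico zero_le_one
      (by norm_num)]
    · norm_num
    · exact Disjoint.preimage _ (Ico_disjoint_Ico_same)
  have hlt : μ (Prod.fst ⁻¹' Ico 0 1) < ⊤ := by
    refine lt_of_le_of_lt (measure_mono ?_) (hfin (Icc 0 1 ×ˢ univ) (isCompact_Icc.prod isCompact_univ))
    rintro ⟨b, k⟩ h
    exact ⟨Ico_subset_Icc_self h, trivial⟩
  have hz : μ (Prod.fst ⁻¹' Ico 0 1) = 0 := by
    rw [hd] at hs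
    by_contra h
    exact (ENNReal.lt_add_right hlt.ne h).ne hs
  rw [← Measure.measure_univ_eq_zero]
  have : (univ : Set (ℝ × ℤ_[2])) = ⋃ n : ℤ, Prod.fst ⁻¹' Ico (n : ℝ) (n + 1) := by
    rw [← preimage_iUnion, iUnion_Ico_intCast, preimage_univ]
  rw [this, measure_iUnion_null_iff]
  intro n
  rw [ht, hz]

theorem result : ∃ (G : Type) (_ : Group G) (_ : TopologicalSpace G),
    TopologicalSpace.MetrizableSpace G ∧ LocallyCompactSpace G ∧ SecondCountableTopology G ∧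
    (∀ x : G, Continuous fun g : G => g * x) ∧
    ∀ μ : @Measure G (borel G), (∀ K : Set G, IsCompact K → μ K < ⊤) →
      (∀ (g : G) (E : Set G), MeasurableSet[borel G] E → μ ((fun e => e * g) '' E) = μ E) →
      μ = 0 := by
  obtain ⟨χ, -, h0, h1, hm⟩ := exists_chi
  refine ⟨X, grp χ h0 hm, (inferInstance : TopologicalSpace (ℝ × ℤ_[2])),
    (inferInstance : TopologicalSpace.MetrizableSpace (ℝ × ℤ_[2])),
    (inferInstance : LocallyCompactSpace (ℝ × ℤ_[2])),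
    (inferInstance : SecondCountableTopology (ℝ × ℤ_[2])), fun x => ?_,
    fun μ hfin hinv => key χ h0 h1 μ hfin hinv⟩
  change Continuous fun g : ℝ × ℤ_[2] => ((x.1 + χ x.2 * g.1, g.2 + x.2) : ℝ × ℤ_[2])
  fun_prop

end Pool.Agent.Results.MP_d698c5_an.NoHaar
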